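import Pool.Agent.Helper70.SUB.SheetW
import Pool.Agent.Helper66.SUBK.LAUBM

/-! Project SUBW (helper70), row SLL: closure properties of slow classes and of Laurent
polynomials with slow coefficients. -/

set_option autoImplicit false

namespace Pool.Agent.Helper47.SUBW

open Filter Finset Pool.Agent.Helper70.SUB Pool.Agent.Helper77.SUBK Pool.Agent.Helper70.SUBL
  Pool.Agent.Helper70.SUBW Pool.Agent.Helper66.SUBK

section Class

variable {M : Type} (φ : Ultrafilter ℕ)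

theorem gm_eq {z z' : ℕ → M} : gm φ z = gm φ z' ↔ ∀ᶠ j in (φ : Filter ℕ), z j = z' j :=
  Germ.coe_eq

theorem gm_surj (g : UP M φ) : ∃ z : ℕ → M, gm φ z = g :=
  Germ.inductionOn g fun z => ⟨z, rfl⟩

variable [Field M]

theorem gm_add (z z' : ℕ → M) : gm φ (fun j => z j + z' j) = gm φ z + gm φ z' := rfl

theorem gm_mul (z z' : ℕ → M) : gm φ (fun j => z j * z' j) = gm φ z * gm φ z' := rfl

theorem gm_sub (z z' : ℕ → M) : gm φ (fun j => z j - z' j) = gm φ z - gm φ z' := rfl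

theorem gm_neg (z : ℕ → M) : gm φ (fun j => - z j) = - gm φ z := rfl

theorem gm_inv (z : ℕ → M) : gm φ (fun j => (z j)⁻¹) = (gm φ z)⁻¹ := rfl

theorem gm_div (z z' : ℕ → M) : gm φ (fun j => z j / z' j) = gm φ z / gm φ z' := rfl

theorem gm_pow (z : ℕ → M) (k : ℕ) : gm φ (fun j => z j ^ k) = gm φ z ^ k := rfl

theorem gm_zero : gm φ (fun _ => (0 : M)) = 0 := rfl

theorem gm_one : gm φ (fun _ => (1 : M)) = 1 := rfl

theorem gm_int (k : ℤ) : gm φ (fun _ => (k : M)) = (k : UP M φ) := rfl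

theorem gm_nat (k : ℕ) : gm φ (fun _ => (k : M)) = (k : UP M φ) := rfl

theorem charZero_UP [CharZero M] : CharZero (UP M φ) := by
  constructor
  intro a b hab
  have h1 : gm φ (fun _ => (a : M)) = gm φ (fun _ => (b : M)) := by
    rw [gm_nat, gm_nat]; exact hab
  rw [gm_eq] at h1
  obtain ⟨j, hj⟩ := h1.exists
  exact_mod_cast hj

end Class

section Slow

variable {M : Type} [Field M] [NumberField M] [IsGalois ℚ M] {S : Finset ℕ} {P : PF S M}
  {φ : Ultrafilter ℕ} {X : ℕ → ℝ} {r : ℕ}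

theorem slG_const (h : ST_SLW) (hS : ∀ p ∈ S, p.Prime) (hX : Tendsto X (φ : Filter ℕ) atTop)
    (c : M) : SlG P φ X (gm φ fun _ => c) :=
  ⟨_, (h M S P φ X hS hX).1 c, rfl⟩

theorem slG_add (h : ST_SLW) (hS : ∀ p ∈ S, p.Prime) (hX : Tendsto X (φ : Filter ℕ) atTop)
    {g g' : UP M φ} (hg : SlG P φ X g) (hg' : SlG P φ X g') : SlG P φ X (g + g') := by
  obtain ⟨z, hz, rfl⟩ := hg
  obtain ⟨z', hz', rfl⟩ := hg'
  exact ⟨_, ((h M S P φ X hS hX).2.1 z z' hz hz').1, rfl⟩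

theorem slG_mul (h : ST_SLW) (hS : ∀ p ∈ S, p.Prime) (hX : Tendsto X (φ : Filter ℕ) atTop)
    {g g' : UP M φ} (hg : SlG P φ X g) (hg' : SlG P φ X g') : SlG P φ X (g * g') := by
  obtain ⟨z, hz, rfl⟩ := hg
  obtain ⟨z', hz', rfl⟩ := hg'
  exact ⟨_, ((h M S P φ X hS hX).2.1 z z' hz hz').2, rfl⟩

theorem slG_inv (h : ST_SLW) (hS : ∀ p ∈ S, p.Prime) (hX : Tendsto X (φ : Filter ℕ) atTop)
    {g : UP M φ} (hg : SlG P φ X g) : SlG P φ X g⁻¹ := by
  obtain ⟨z, hz, rfl⟩ := hg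
  exact ⟨_, (h M S P φ X hS hX).2.2.1 z hz, rfl⟩

theorem slG_neg (h : ST_SLW) (hS : ∀ p ∈ S, p.Prime) (hX : Tendsto X (φ : Filter ℕ) atTop)
    {g : UP M φ} (hg : SlG P φ X g) : SlG P φ X (-g) := by
  have h1 := slG_mul h hS hX (slG_const (P := P) h hS hX (-1 : M)) hg
  have h2 : gm φ (fun _ => (-1 : M)) = -1 := rfl
  rwa [h2, neg_one_mul] at h1

theorem slG_sub (h : ST_SLW) (hS : ∀ p ∈ S, p.Prime) (hX : Tendsto X (φ : Filter ℕ) atTop)
    {g g' : UP M φ} (hg : SlG P φ X g) (hg' : SlG P φ X g') : SlG P φ X (g - g') := by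
  rw [sub_eq_add_neg]
  exact slG_add h hS hX hg (slG_neg h hS hX hg')

theorem slG_div (h : ST_SLW) (hS : ∀ p ∈ S, p.Prime) (hX : Tendsto X (φ : Filter ℕ) atTop)
    {g g' : UP M φ} (hg : SlG P φ X g) (hg' : SlG P φ X g') : SlG P φ X (g / g') := by
  rw [div_eq_mul_inv]
  exact slG_mul h hS hX hg (slG_inv h hS hX hg')

theorem slG_zero (h : ST_SLW) (hS : ∀ p ∈ S, p.Prime) (hX : Tendsto X (φ : Filter ℕ) atTop) :
    SlG P φ X (0 : UP M φ) := slG_const (P := P) h hS hX (0 : M)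

theorem slG_one (h : ST_SLW) (hS : ∀ p ∈ S, p.Prime) (hX : Tendsto X (φ : Filter ℕ) atTop) :
    SlG P φ X (1 : UP M φ) := slG_const (P := P) h hS hX (1 : M)

theorem slG_int (h : ST_SLW) (hS : ∀ p ∈ S, p.Prime) (hX : Tendsto X (φ : Filter ℕ) atTop)
    (k : ℤ) : SlG P φ X (k : UP M φ) := slG_const (P := P) h hS hX (k : M)

theorem slL_zero (h : ST_SLW) (hS : ∀ p ∈ S, p.Prime) (hX : Tendsto X (φ : Filter ℕ) atTop) :
    SlL P φ X (0 : LauM (UP M φ) r) := by
  intro m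
  rw [AddMonoidAlgebra.coeff_zero]
  exact slG_zero h hS hX

theorem slL_add (h : ST_SLW) (hS : ∀ p ∈ S, p.Prime) (hX : Tendsto X (φ : Filter ℕ) atTop)
    {F G : LauM (UP M φ) r} (hF : SlL P φ X F) (hG : SlL P φ X G) : SlL P φ X (F + G) := by
  intro m
  rw [AddMonoidAlgebra.coeff_add, Finsupp.add_apply]
  exact slG_add h hS hX (hF m) (hG m)

theorem slL_single (h : ST_SLW) (hS : ∀ p ∈ S, p.Prime) (hX : Tendsto X (φ : Filter ℕ) atTop)
    (m : Fin r → ℤ) {g : UP M φ} (hg : SlG P φ X g) :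
    SlL P φ X (AddMonoidAlgebra.single m g) := by
  classical
  intro m'
  rw [AddMonoidAlgebra.coeff_single, Finsupp.single_apply]
  split_ifs with hm
  · exact hg
  · exact slG_zero h hS hX

theorem slL_sum (h : ST_SLW) (hS : ∀ p ∈ S, p.Prime) (hX : Tendsto X (φ : Filter ℕ) atTop)
    {ι : Type} (s : Finset ι) (F : ι → LauM (UP M φ) r) (hF : ∀ i ∈ s, SlL P φ X (F i)) :
    SlL P φ X (∑ i ∈ s, F i) := by
  classical
  induction s using Finset.induction_on with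
  | empty => rw [Finset.sum_empty]; exact slL_zero h hS hX
  | insert a s ha ih =>
    rw [Finset.sum_insert ha]
    exact slL_add h hS hX (hF a (Finset.mem_insert_self a s))
      (ih fun i hi => hF i (Finset.mem_insert_of_mem hi))

theorem slL_mul (h : ST_SLW) (hS : ∀ p ∈ S, p.Prime) (hX : Tendsto X (φ : Filter ℕ) atTop)
    {F G : LauM (UP M φ) r} (hF : SlL P φ X F) (hG : SlL P φ X G) : SlL P φ X (F * G) := by
  have h1 : F * G = ∑ m ∈ F.coeff.support, ∑ m' ∈ G.coeff.support,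
      AddMonoidAlgebra.single (m + m') (F.coeff m * G.coeff m') := by
    calc F * G = (F.coeff.sum AddMonoidAlgebra.single) * (G.coeff.sum AddMonoidAlgebra.single) := by
          rw [AddMonoidAlgebra.sum_coeff_single, AddMonoidAlgebra.sum_coeff_single]
      _ = _ := by
          unfold Finsupp.sum
          rw [Finset.sum_mul_sum]
          refine Finset.sum_congr rfl fun m _ => Finset.sum_congr rfl fun m' _ => ?_
          rw [AddMonoidAlgebra.single_mul_single]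
  rw [h1]
  refine slL_sum h hS hX _ _ fun m _ => slL_sum h hS hX _ _ fun m' _ => ?_
  exact slL_single h hS hX _ (slG_mul h hS hX (hF m) (hG m'))

theorem slL_neg (h : ST_SLW) (hS : ∀ p ∈ S, p.Prime) (hX : Tendsto X (φ : Filter ℕ) atTop)
    {F : LauM (UP M φ) r} (hF : SlL P φ X F) : SlL P φ X (-F) := by
  intro m
  have h1 : (-F).coeff m = -(F.coeff m) := by
    rw [AddMonoidAlgebra.coeff_neg, Finsupp.neg_apply]
  rw [h1]
  exact slG_neg h hS hX (hF m)

theorem slL_sub (h : ST_SLW) (hS : ∀ p ∈ S, p.Prime) (hX : Tendsto X (φ : Filter ℕ) atTop)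
    {F G : LauM (UP M φ) r} (hF : SlL P φ X F) (hG : SlL P φ X G) : SlL P φ X (F - G) := by
  rw [sub_eq_add_neg]
  exact slL_add h hS hX hF (slL_neg h hS hX hG)

theorem slL_one (h : ST_SLW) (hS : ∀ p ∈ S, p.Prime) (hX : Tendsto X (φ : Filter ℕ) atTop) :
    SlL P φ X (1 : LauM (UP M φ) r) := by
  rw [AddMonoidAlgebra.one_def]
  exact slL_single h hS hX _ (slG_one h hS hX)

theorem slL_pow (h : ST_SLW) (hS : ∀ p ∈ S, p.Prime) (hX : Tendsto X (φ : Filter ℕ) atTop)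
    {F : LauM (UP M φ) r} (hF : SlL P φ X F) (k : ℕ) : SlL P φ X (F ^ k) := by
  induction k with
  | zero => rw [pow_zero]; exact slL_one h hS hX
  | succ k ih => rw [pow_succ]; exact slL_mul h hS hX ih hF

theorem slL_drM (h : ST_SLW) (hS : ∀ p ∈ S, p.Prime) (hX : Tendsto X (φ : Filter ℕ) atTop)
    {F : LauM (UP M φ) r} (hF : SlL P φ X F) (δ : Fin r → ℤ) : SlL P φ X (drM δ F) := by
  intro m
  rw [coeff_drM]
  exact slG_mul h hS hX (slG_int h hS hX _) (hF m)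

theorem slw_of_slG (h : ST_SLW) (hS : ∀ p ∈ S, p.Prime) (hX : Tendsto X (φ : Filter ℕ) atTop)
    {z : ℕ → M} {g : UP M φ} (hg : SlG P φ X g) (hz : gm φ z = g) : Slw P φ X z := by
  obtain ⟨z', hz', h1⟩ := hg
  have h2 : ∀ᶠ j in (φ : Filter ℕ), z' j = z j := by rw [← gm_eq, h1, hz]
  exact (h M S P φ X hS hX).2.2.2.2.2.2.1 z' z h2 hz'

end Slow

theorem SLL (h : ST_SLW) : ST_SLL := by
  intro M _ _ _ S P φ X r hS hX
  refine ⟨charZero_UP φ, fun c => slG_const h hS hX c, fun g g' hg hg' =>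
    ⟨slG_add h hS hX hg hg', slG_mul h hS hX hg hg', slG_sub h hS hX hg hg',
      slG_div h hS hX hg hg'⟩, fun k => slG_int h hS hX k,
    fun z g hg hz => slw_of_slG h hS hX hg hz, fun F G hF hG =>
    ⟨slL_add h hS hX hF hG, slL_sub h hS hX hF hG, slL_mul h hS hX hF hG⟩,
    fun F δ hF => slL_drM h hS hX hF δ, fun F k hF => slL_pow h hS hX hF k,
    fun m g hg => slL_single h hS hX m hg⟩

end Pool.Agent.Helper47.SUBW
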