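import Pool.Agent.Helper70.SUB.SheetW
import Pool.Agent.Helper8.SUBW.CSTW
import Pool.Agent.Helper47.SUBW.SLL

/-! Project SUBW (helper70), row SUBYW: an integer which is close to a sum of moderate S-units with
slow coefficients is such a sum. -/

set_option autoImplicit false

namespace Pool.Agent.Helper47.SUBW

open Filter Finset Matrix Pool.Agent.Helper70.SUB Pool.Agent.Helper77.SUBK Pool.Agent.Helper70.SUBL
  Pool.Agent.Helper70.SUBW

theorem gm_sum' {M : Type} [Field M] (φ : Ultrafilter ℕ) {κ : Type} (s : Finset κ)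
    (e : κ → ℕ → M) : gm φ (fun j => ∑ k ∈ s, e k j) = ∑ k ∈ s, gm φ (e k) := by
  classical
  induction s using Finset.induction_on with
  | empty => simp only [Finset.sum_empty]; rfl
  | insert a s ha ih =>
    rw [Finset.sum_insert ha, ← ih]
    simp only [Finset.sum_insert ha]
    rfl

/-- the class of a linear combination with constant coefficients -/
theorem gm_lin {M : Type} [Field M] (φ : Ultrafilter ℕ) {κ : Type} [Fintype κ] (g : κ → M)
    (e : κ → ℕ → M) : gm φ (fun j => ∑ k, g k * e k j) = ∑ k, g k • gm φ (e k) := by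
  rw [gm_sum' φ Finset.univ (fun k j => g k * e k j)]
  rfl

theorem SUBYW (hSUB : ST_SUBTU) (hSLW : ST_SLW) (hSPW : ST_SPW) (hPRK : ST_PRK) (hSVB : ST_SVB) :
    ST_SUBYW := by
  classical
  intro M _ _ _ S P φ X y f B η hS hX hf hη hy
  obtain ⟨n, c, u, hc, hu, hfs⟩ := hf
  obtain ⟨s1, s2, -, s4, s5, -, -, -, -, -, -, s12, -⟩ := hSLW M S P φ X hS hX
  obtain ⟨-, -, m3, -, -, -, -, -, -, -, -, m12, m13⟩ := hSPW M S P φ X hS hX
  obtain ⟨-, hpfS, -⟩ := hPRK M S P hS
  obtain ⟨hSI, -⟩ := hSVB M
  set e : Fin n × (M ≃ₐ[ℚ] M) → ℕ → M := fun q j => q.2 (c q.1 j * u q.1 j) with he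
  set v : Fin n × (M ≃ₐ[ℚ] M) → UP M φ := fun q => gm φ (e q) with hv
  have hc' : ∀ q : Fin n × (M ≃ₐ[ℚ] M), Slw P φ X (fun j => q.2 (c q.1 j)) :=
    fun q => s4 (c q.1) q.2 (hc q.1)
  have hu' : ∀ q : Fin n × (M ≃ₐ[ℚ] M), MU P φ X (fun j => q.2 (u q.1 j)) :=
    fun q => m3 (u q.1) q.2 (hu q.1)
  by_cases hmem : gm φ (fun j => (y j : M)) ∈ Submodule.span M (Set.range v)
  · rw [Submodule.mem_span_range_iff_exists_fun] at hmem
    obtain ⟨g, hg⟩ := hmem
    rw [hv, ← gm_lin, gm_eq] at hg
    have h1 := m13 (Fin n × (M ≃ₐ[ℚ] M)) (fun q j => g q * q.2 (c q.1 j))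
      (fun q j => q.2 (u q.1 j)) (fun q => (s2 _ _ (s1 (g q)) (hc' q)).2) (fun q => (hu' q).1)
    refine (m12 _ _ ?_).2 h1
    filter_upwards [hg] with j hj
    rw [← hj]
    refine Finset.sum_congr rfl fun q _ => ?_
    simp only [he, map_mul]
    ring
  · exfalso
    obtain ⟨κ, a, hainj, haspan, haind⟩ := exists_linearIndependent' M v
    have : Fintype κ := Fintype.ofInjective a hainj
    -- representatives of the places
    set Φ : (M ≃ₐ[ℚ] M) → M → ℝ := fun σ x => P.nv none (σ x) with hΦ
    set rep : (M ≃ₐ[ℚ] M) → (M ≃ₐ[ℚ] M) := fun σ => Function.invFun Φ (Φ σ) with hrep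
    have hrep1 : ∀ σ x, P.nv none (rep σ x) = P.nv none (σ x) := by
      intro σ x
      have h1 : Φ (rep σ) = Φ σ := Function.invFun_eq ⟨σ, rfl⟩
      exact congrFun h1 x
    have hrep2 : ∀ σ σ', (∀ x, P.nv none (σ x) = P.nv none (σ' x)) → rep σ = rep σ' := by
      intro σ σ' h
      have h1 : Φ σ = Φ σ' := funext h
      rw [hrep]
      simp only
      rw [h1]
    have hlam : ∀ τ : M ≃ₐ[ℚ] M, ∃ l : κ → M,
        ∀ᶠ j in (φ : Filter ℕ), ∑ k, l k * e (a k) j = τ (f j) := by
      intro τ
      have h1 : gm φ (fun j => τ (f j)) = ∑ i, v (i, τ) := by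
        rw [hv]
        simp only
        rw [← gm_sum' φ Finset.univ (fun i : Fin n => e (i, τ)), gm_eq]
        filter_upwards [hfs] with j hj
        rw [← hj, map_sum]
      have h2 : gm φ (fun j => τ (f j)) ∈ Submodule.span M (Set.range (v ∘ a)) := by
        rw [haspan, h1]
        exact Submodule.sum_mem _ fun i _ => Submodule.subset_span ⟨(i, τ), rfl⟩
      rw [Submodule.mem_span_range_iff_exists_fun] at h2
      obtain ⟨l, hl⟩ := h2
      refine ⟨l, ?_⟩
      have h3 : gm φ (fun j => ∑ k, l k * e (a k) j) = gm φ (fun j => τ (f j)) := by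
        rw [gm_lin φ l (fun k => e (a k)), ← hl]
        rfl
      exact (gm_eq φ).1 h3
    choose lam hlam using hlam
    -- the forms and the vectors
    set bb : (M ≃ₐ[ℚ] M) → Option κ → M := fun σ o =>
      Option.elim o 1 (fun k => -lam (rep σ).symm k) with hbb
    set L : Option ℕ → (M ≃ₐ[ℚ] M) → Matrix (Option κ) (Option κ) M := fun v' σ =>
      if v' = none then (1 : Matrix (Option κ) (Option κ) M).updateRow none (bb σ) else 1 with hL
    set Y : ℕ → Option κ → M := fun j o => Option.elim o (y j : M) (fun k => e (a k) j) with hY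
    have hYn : ∀ j, Y j none = (y j : M) := fun j => rfl
    have hYs : ∀ j k, Y j (some k) = (a k).2 (c (a k).1 j) * (a k).2 (u (a k).1 j) := by
      intro j k
      show (a k).2 (c (a k).1 j * u (a k).1 j) = _
      rw [map_mul]
    -- exponents
    have hA : ∀ k : κ, ∃ A : ℝ, 0 < A ∧ ∀ᶠ j in (φ : Filter ℕ),
        HB P (X j ^ A) ((a k).2 (u (a k).1 j)) := fun k => (hu' (a k)).2
    choose A hA0 hAu using hA
    set T : ℕ := (plc S).card * (Fintype.card (M ≃ₐ[ℚ] M) * Fintype.card κ) with hT
    set δ : ℝ := η / (2 * ((T : ℝ) + 1)) with hδ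
    have hT0 : (0 : ℝ) ≤ T := Nat.cast_nonneg T
    have hδ0 : 0 < δ := by positivity
    have hδT : δ * ((T : ℝ) + 1) = η / 2 := by
      rw [hδ]
      field_simp
    have hX1 : ∀ᶠ j in (φ : Filter ℕ), (1 : ℝ) ≤ X j := hX.eventually_ge_atTop 1
    have hSV : ∀ᶠ j in (φ : Filter ℕ), ∀ k : κ, SV S ((a k).2 (u (a k).1 j)) :=
      Filter.eventually_all.mpr fun k => (hu' (a k)).1
    have hcs : ∀ (ε : ℝ), 0 < ε → ∀ᶠ j in (φ : Filter ℕ), ∀ v' ∈ plc S,
        ∀ (σ' : M ≃ₐ[ℚ] M) (k : κ), P.nv v' (σ' ((a k).2 (c (a k).1 j))) ≤ X j ^ ε := by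
      intro ε hε
      rw [Filter.eventually_all_finset]
      intro v' hv'
      rw [Filter.eventually_all]
      intro σ'
      rw [Filter.eventually_all]
      intro k
      exact s5 _ (hc' (a k)) v' hv' σ' ε hε
    have hAall : ∀ᶠ j in (φ : Filter ℕ), ∀ k : κ, HB P (X j ^ A k) ((a k).2 (u (a k).1 j)) :=
      Filter.eventually_all.mpr hAu
    have hlamall : ∀ᶠ j in (φ : Filter ℕ), ∀ σ : M ≃ₐ[ℚ] M,
        ∑ k, lam σ k * e (a k) j = σ (f j) := Filter.eventually_all.mpr hlam
    have hyint : ∀ v' ∈ plc S, ∀ (σ : M ≃ₐ[ℚ] M) (q : ℤ),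
        P.nv v' (σ (q : M)) ≤ if v' = none then |(q : ℝ)| else 1 := by
      intro v' hv' σ q
      rw [map_intCast]
      have h1 : ((q : ℤ) : M) = (((q : ℤ) : ℚ) : M) := by push_cast; rfl
      rw [h1, P.ext v' hv']
      cases v' with
      | none =>
        rw [if_pos rfl]
        have h2 : av none ((q : ℤ) : ℚ) = |(((q : ℤ) : ℚ) : ℝ)| := rfl
        rw [h2]
        push_cast
        exact le_rfl
      | some p =>
        rw [if_neg (by simp)]
        have hp : p ∈ S := of_mem_some hv'
        have : Fact p.Prime := ⟨hS p hp⟩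
        have h2 : av (some p) ((q : ℤ) : ℚ) = (padicNorm p ((q : ℤ) : ℚ) : ℝ) := rfl
        rw [h2]
        exact_mod_cast padicNorm.of_int q
    obtain ⟨g, hg0, hrel⟩ := hSUB M S P (Option κ) L (η / 2) (1 + ∑ k, A k + |B|) φ X Y ⟨none⟩ hS
      (by
        intro v' _ σ
        simp only [hL]
        split_ifs
        · rw [Pool.Agent.Helper8.SUBW.det_updI]
          simp [hbb]
        · simp)
      (by
        intro v' _ σ σ' h
        simp only [hL]
        split_ifs with hv'
        · subst hv'
          have h1 := hrep2 σ σ' h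
          simp only [hbb]
          rw [h1]
        · rfl)
      (by positivity) hX
      (by
        intro ε' hε'
        filter_upwards [s12 κ Finset.univ (fun k j => (a k).2 (c (a k).1 j))
          (fun k _ => hc' (a k)) ε' hε', hSV] with j hD hj
        obtain ⟨D, hD0, hDle, hDi⟩ := hD
        refine ⟨D, hD0, hDle, fun o => ?_⟩
        cases o with
        | none =>
          rw [hYn]
          have h1 : (D : M) * (y j : M) = (((D : ℤ) * y j : ℤ) : M) := by push_cast; rfl
          rw [h1]
          refine hSI S _ ?_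
          exact isIntegral_algebraMap (R := ℤ) (A := M) (x := ((D : ℤ) * y j))
        | some k =>
          obtain ⟨m, hm, hmi⟩ := (hj k).2.1
          refine ⟨m, hm, ?_⟩
          rw [hYs]
          have h1 := (hDi k (Finset.mem_univ k)).mul hmi
          have h2 : (m : M) * ((D : M) * ((a k).2 (c (a k).1 j) * (a k).2 (u (a k).1 j))) =
              (D : M) * (a k).2 (c (a k).1 j) * ((m : M) * (a k).2 (u (a k).1 j)) := by
            ring
          rw [h2]
          exact h1)
      (by
        filter_upwards [hcs 1 one_pos, hAall, hX1, hy] with j h1 h2 h3 h4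
        intro v' hv' σ' o
        have hXp : 0 < X j := by linarith
        have hsumA : 0 ≤ ∑ k, A k := Finset.sum_nonneg fun k _ => (hA0 k).le
        cases o with
        | none =>
          rw [hYn]
          refine (hyint v' hv' σ' (y j)).trans ?_
          have h5 : (1 : ℝ) ≤ X j ^ (1 + ∑ k, A k + |B|) :=
            Real.one_le_rpow h3 (by positivity)
          split_ifs
          · refine h4.1.trans (Real.rpow_le_rpow_of_exponent_le h3 ?_)
            have := le_abs_self B
            linarith
          · exact h5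
        | some k =>
          rw [hYs, map_mul, P.mul v' hv', add_assoc, Real.rpow_add hXp]
          refine mul_le_mul (h1 v' hv' σ' k) ?_ (P.nn _ _) (Real.rpow_nonneg hXp.le _)
          refine (h2 k v' hv' σ').trans ?_
          apply Real.rpow_le_rpow_of_exponent_le h3
          have h6 := Finset.single_le_sum (f := A) (fun k _ => (hA0 k).le) (Finset.mem_univ k)
          have := abs_nonneg B
          linarith)
      (by
        filter_upwards [hcs δ hδ0, hX1, hSV, hy, hlamall] with j h1 h3 h4 h5 h6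
        have hXp : 0 < X j := by linarith
        -- the first component
        have hfirst : ∀ v' ∈ plc S, ∀ σ : M ≃ₐ[ℚ] M,
            P.nv v' (σ ((L v' σ).mulVec (Y j) none)) ≤ if v' = none then X j ^ (-η) else 1 := by
          intro v' hv' σ
          by_cases hvn : v' = none
          · subst hvn
            rw [if_pos rfl]
            have e1 : (L none σ).mulVec (Y j) none = (y j : M) - (rep σ).symm (f j) := by
              simp only [hL, if_true]
              rw [Pool.Agent.Helper8.SUBW.upd_selfI, Fintype.sum_option]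
              rw [← h6 (rep σ).symm]
              simp only [hbb, Option.elim, hY, neg_mul, one_mul, Finset.sum_neg_distrib]
              ring
            rw [e1, ← hrep1, map_sub, AlgEquiv.apply_symm_apply, map_intCast]
            exact h5.2
          · rw [if_neg hvn]
            have e1 : (L v' σ).mulVec (Y j) none = (y j : M) := by
              simp only [hL, if_neg hvn]
              rw [Matrix.one_mulVec]
              exact hYn j
            rw [e1]
            have := hyint v' hv' σ (y j)
            rwa [if_neg hvn] at this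
        have hother : ∀ v' ∈ plc S, ∀ (σ : M ≃ₐ[ℚ] M) (k : κ),
            (L v' σ).mulVec (Y j) (some k) = (a k).2 (c (a k).1 j) * (a k).2 (u (a k).1 j) := by
          intro v' _ σ k
          simp only [hL]
          split_ifs
          · rw [Pool.Agent.Helper8.SUBW.upd_neI _ _ _ _ (by simp), hYs]
          · rw [Matrix.one_mulVec, hYs]
        have hsplit : ∏ v' ∈ plc S, ∏ σ : M ≃ₐ[ℚ] M, ∏ o,
            P.nv v' (σ ((L v' σ).mulVec (Y j) o)) =
            ((∏ v' ∈ plc S, ∏ σ : M ≃ₐ[ℚ] M, P.nv v' (σ ((L v' σ).mulVec (Y j) none))) *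
            ∏ v' ∈ plc S, ∏ σ : M ≃ₐ[ℚ] M, ∏ k : κ, P.nv v' (σ ((a k).2 (c (a k).1 j)))) *
            ∏ v' ∈ plc S, ∏ σ : M ≃ₐ[ℚ] M, ∏ k : κ, P.nv v' (σ ((a k).2 (u (a k).1 j))) := by
          rw [← Finset.prod_mul_distrib, ← Finset.prod_mul_distrib]
          refine Finset.prod_congr rfl fun v' hv' => ?_
          rw [← Finset.prod_mul_distrib, ← Finset.prod_mul_distrib]
          refine Finset.prod_congr rfl fun σ _ => ?_
          rw [Fintype.prod_option, mul_assoc, ← Finset.prod_mul_distrib]
          congr 1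
          refine Finset.prod_congr rfl fun k _ => ?_
          rw [hother v' hv' σ k, map_mul, P.mul v' hv']
        have hu1 : ∏ v' ∈ plc S, ∏ σ : M ≃ₐ[ℚ] M, ∏ k : κ,
            P.nv v' (σ ((a k).2 (u (a k).1 j))) = 1 := by
          have e1 : ∏ k : κ, ∏ v' ∈ plc S, ∏ σ : M ≃ₐ[ℚ] M,
              P.nv v' (σ ((a k).2 (u (a k).1 j))) =
              ∏ v' ∈ plc S, ∏ σ : M ≃ₐ[ℚ] M, ∏ k : κ, P.nv v' (σ ((a k).2 (u (a k).1 j))) :=
            Finset.prod_comm.trans (Finset.prod_congr rfl fun v' _ => Finset.prod_comm)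
          rw [← e1]
          exact Finset.prod_eq_one fun k _ => hpfS _ (h4 k)
        have hcb : ∏ v' ∈ plc S, ∏ σ : M ≃ₐ[ℚ] M, ∏ k : κ,
            P.nv v' (σ ((a k).2 (c (a k).1 j))) ≤ (X j ^ δ) ^ T := by
          calc ∏ v' ∈ plc S, ∏ σ : M ≃ₐ[ℚ] M, ∏ k : κ, P.nv v' (σ ((a k).2 (c (a k).1 j)))
              ≤ ∏ v' ∈ plc S, ∏ σ : M ≃ₐ[ℚ] M, ∏ k : κ, X j ^ δ := by
                refine Finset.prod_le_prod (fun v' _ => Finset.prod_nonneg fun σ' _ =>
                  Finset.prod_nonneg fun i _ => P.nn _ _) fun v' hv' => ?_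
                refine Finset.prod_le_prod (fun σ' _ => Finset.prod_nonneg fun i _ => P.nn _ _)
                  fun σ' _ => ?_
                exact Finset.prod_le_prod (fun i _ => P.nn _ _) fun i _ => h1 v' hv' σ' i
            _ = (X j ^ δ) ^ T := by
                rw [Finset.prod_const, Finset.prod_const, Finset.prod_const, Finset.card_univ,
                  Finset.card_univ, ← pow_mul, ← pow_mul, hT]
                congr 1
                ring
        have hXη : X j ^ (-η) ≤ 1 := Real.rpow_le_one_of_one_le_of_nonpos h3 (by linarith)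
        have hXη0 : 0 ≤ X j ^ (-η) := Real.rpow_nonneg hXp.le _
        have hfb : ∏ v' ∈ plc S, ∏ σ : M ≃ₐ[ℚ] M,
            P.nv v' (σ ((L v' σ).mulVec (Y j) none)) ≤ X j ^ (-η) := by
          calc ∏ v' ∈ plc S, ∏ σ : M ≃ₐ[ℚ] M, P.nv v' (σ ((L v' σ).mulVec (Y j) none))
              ≤ ∏ v' ∈ plc S, (if v' = none then
                  (X j ^ (-η)) ^ Fintype.card (M ≃ₐ[ℚ] M) else 1) := by
                refine Finset.prod_le_prod (fun v' _ => Finset.prod_nonneg fun σ' _ => P.nn _ _)
                  fun v' hv' => ?_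
                refine (Finset.prod_le_prod (fun σ' _ => P.nn _ _)
                  fun σ' _ => hfirst v' hv' σ').trans ?_
                rw [Finset.prod_const, Finset.card_univ]
                split_ifs
                · exact le_rfl
                · rw [one_pow]
            _ = (X j ^ (-η)) ^ Fintype.card (M ≃ₐ[ℚ] M) := by
                rw [Finset.prod_ite_eq', if_pos mem_none]
            _ ≤ X j ^ (-η) := pow_le_of_le_one hXη0 hXη Fintype.card_ne_zero
        have hpow : (X j ^ δ) ^ T = X j ^ (δ * T) := by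
          rw [← Real.rpow_natCast, ← Real.rpow_mul hXp.le]
        rw [hsplit, hu1, mul_one]
        refine (mul_le_mul hfb hcb (Finset.prod_nonneg fun v' _ => Finset.prod_nonneg fun σ' _ =>
          Finset.prod_nonneg fun i _ => P.nn _ _) hXη0).trans ?_
        rw [hpow, ← Real.rpow_add hXp]
        apply Real.rpow_le_rpow_of_exponent_le h3
        nlinarith [hδT])
    -- the contradiction
    have hind : LinearIndependent M (fun o : Option κ => gm φ (fun j => Y j o)) := by
      rw [linearIndependent_option]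
      refine ⟨haind, ?_⟩
      have h1 : ((fun o : Option κ => gm φ (fun j => Y j o)) ∘ (some : κ → Option κ)) = v ∘ a := rfl
      show gm φ (fun j => Y j none) ∉ Submodule.span M
        (Set.range ((fun o : Option κ => gm φ (fun j => Y j o)) ∘ (some : κ → Option κ)))
      rw [h1, haspan]
      exact hmem
    have h1 : ∑ o, g o • gm φ (fun j => Y j o) = 0 := by
      rw [← gm_lin φ g (fun o j => Y j o)]
      exact (gm_eq φ).2 hrel
    exact hg0 (funext (Fintype.linearIndependent_iff.1 hind g h1))

end Pool.Agent.Helper47.SUBW
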