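import Pool.Agent.Helper70.SUB.SheetW
import Pool.Agent.Helper47.SUBK.T1BG

/-! Project SUBW (helper70), row T1BW: `x = w ^ 2 +` smaller terms with small coefficients, `y` an
arbitrary integer. -/

set_option autoImplicit false

namespace Pool.Agent.Helper47.SUBW

open Filter Finset Pool.Agent.Helper70.SUB Pool.Agent.Helper77.SUBK Pool.Agent.Helper70.SUBL
  Pool.Agent.Helper70.SUBW Pool.Agent.Helper47.SUBK

theorem T1BW (hEXTW : ST_EXTW) (hPFE : ST_PFE) (hSLW : ST_SLW) (hSPW : ST_SPW) (hDOMW : ST_DOMW)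
    (hEXPK : ST_EXPK) (hSUBYW : ST_SUBYW) (hMAINW : ST_MAINW) : ST_T1BW := by
  classical
  intro M _ _ _ S ψ t ε δ hS hε hδ hδ2
  by_contra hcon
  obtain ⟨s, φ, hX, hs, hκ⟩ := hEXTW (M × (Fin t → ℤ) × (Fin t → M) × ℤ × ℤ)
    (fun κ b => SV S b.1 ∧ (∀ i, SV S (b.2.2.1 i)) ∧
      (∀ i, |(b.2.1 i : ℝ)| ≤ |(b.2.2.2.1 : ℝ)| ^ κ) ∧
      (∀ i, ‖ψ ((b.2.1 i : M) * b.2.2.1 i)‖ ≤ ‖ψ b.1‖ ^ (2 - δ)) ∧
      b.1 ^ 2 + ∑ i, (b.2.1 i : M) * b.2.2.1 i = (b.2.2.2.1 : M) ∧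
      b.2.2.2.2 ^ 2 ≠ b.2.2.2.1 ^ 3)
    (fun b => b.2.2.2.1) (fun b => b.2.2.2.2 ^ 2 - b.2.2.2.1 ^ 3) ε hε
    (fun κ b hb => sub_ne_zero.2 hb.2.2.2.2.2)
    (fun h => hcon (by
      obtain ⟨κ, hκ, C, hC⟩ := h
      exact ⟨κ, hκ, C, fun w c a x y h1 h2 h3 h4 h5 h6 =>
        hC (w, c, a, x, y) ⟨h1, h2, h3, h4, h5, h6⟩⟩))
  obtain ⟨P, hP⟩ := hPFE M S ψ hS
  set w : ℕ → M := fun j => (s j).1 with hw
  set c : Fin t → ℕ → M := fun i j => (((s j).2.1 i : ℤ) : M) with hc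
  set a : Fin t → ℕ → M := fun i j => (s j).2.2.1 i with ha
  set x : ℕ → ℤ := fun j => (s j).2.2.2.1 with hx
  set y : ℕ → ℤ := fun j => (s j).2.2.2.2 with hy
  have hwS : ∀ j, SV S (w j) := fun j => (hs j).1.1
  have haS : ∀ i j, SV S (a i j) := fun i j => (hs j).1.2.1 i
  have hcB : ∀ i j, |((s j).2.1 i : ℝ)| ≤ |(x j : ℝ)| ^ (1 / ((j : ℝ) + 1)) :=
    fun i j => (hs j).1.2.2.1 i
  have haB : ∀ i j, ‖ψ (c i j * a i j)‖ ≤ ‖ψ (w j)‖ ^ (2 - δ) := fun i j => (hs j).1.2.2.2.1 i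
  have hsum : ∀ j, w j ^ 2 + ∑ i, c i j * a i j = (x j : M) := fun j => (hs j).1.2.2.2.2.1
  have hne3 : ∀ j, y j ^ 2 ≠ x j ^ 3 := fun j => (hs j).1.2.2.2.2.2
  have hx1 : ∀ j, 1 ≤ |(x j : ℝ)| := fun j => (hs j).2.1
  have hdj : ∀ j, |((y j ^ 2 - x j ^ 3 : ℤ) : ℝ)| ≤ |(x j : ℝ)| ^ (1 / (2 + ε)) :=
    fun j => (hs j).2.2
  have hXt : Tendsto (fun j => |(x j : ℝ)|) (φ : Filter ℕ) atTop := hX
  -- closure properties
  obtain ⟨hconst, _, _, _, _, _, _, _, _, hint, _, _, _⟩ :=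
    hSLW M S P φ (fun j => |(x j : ℝ)|) hS hXt
  obtain ⟨_, hMUinv, _, _, _, hslSp, hmuSp, hSpop, hSppow, hSpsum, hSpa, hSpcongr, _⟩ :=
    hSPW M S P φ (fun j => |(x j : ℝ)|) hS hXt
  have hcs : ∀ i, Slw P φ (fun j => |(x j : ℝ)|) (c i) := by
    intro i
    refine hint (fun j => (s j).2.1 i) fun e he => ?_
    filter_upwards [hκ e he] with j hj
    exact (hcB i j).trans (Real.rpow_le_rpow_of_exponent_le (hx1 j) hj)
  obtain ⟨hMUw, hSpA⟩ := hDOMW M S P φ 2 t δ w c a x hS (by norm_num) hδ (by push_cast; exact hδ2)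
    hXt (Eventually.of_forall hwS) (fun i => Eventually.of_forall (haS i)) hcs
    (fun i => Eventually.of_forall fun j => by
      rw [hP, hP]
      push_cast
      exact haB i j) (Eventually.of_forall hsum)
  set A : ℕ → M := fun j => ∑ i, c i j * a i j with hA
  -- the terms at the distinguished place
  have hsB : ∀ j, ‖ψ (A j)‖ ≤ t * ‖ψ (w j)‖ ^ (2 - δ) := by
    intro j
    rw [hA]
    simp only [map_sum]
    refine (norm_sum_le _ _).trans ?_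
    refine (Finset.sum_le_sum fun i _ => haB i j).trans ?_
    simp
  have hxC : ∀ j, (((x j : ℝ)) : ℂ) = ψ (w j) ^ 2 + ψ (A j) := by
    intro j
    have h1 := congrArg ψ (hsum j)
    rw [map_add, map_pow, map_intCast] at h1
    rw [h1]
    push_cast
    rfl
  -- the series
  obtain ⟨K, hK⟩ := exists_nat_ge (7 / δ)
  have hK7 : 7 ≤ δ * K := by
    rw [div_le_iff₀ hδ] at hK
    linarith
  have hK1 : 1 ≤ K := by
    rcases Nat.eq_zero_or_pos K with h | h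
    · exfalso
      rw [h, Nat.cast_zero, mul_zero] at hK7
      linarith
    · exact h
  obtain ⟨⟨q, C, _, hC, hcv⟩, _⟩ := hEXPK K hK1
  obtain ⟨W0, hW0⟩ := thrBG t hδ (C * (t : ℝ) ^ K)
  -- the terms are large
  have hWlarge : ∀ᶠ j in (φ : Filter ℕ), W0 ≤ ‖ψ (w j)‖ := by
    filter_upwards [hXt.eventually (eventually_gt_atTop ((t + 1) * (max W0 1) ^ 2))] with j hj
    by_contra hlt
    rw [not_le] at hlt
    have h1 : |(x j : ℝ)| ≤ ‖ψ (w j)‖ ^ 2 + t * ‖ψ (w j)‖ ^ (2 - δ) := by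
      have h2 := congrArg norm (hxC j)
      rw [Complex.norm_real, Real.norm_eq_abs] at h2
      rw [h2]
      refine (norm_add_le _ _).trans ?_
      rw [norm_pow]
      linarith [hsB j]
    have hm1 : (1 : ℝ) ≤ max W0 1 := le_max_right _ _
    have h3 : ‖ψ (w j)‖ ≤ max W0 1 := hlt.le.trans (le_max_left _ _)
    have h4 : ‖ψ (w j)‖ ^ 2 ≤ (max W0 1) ^ 2 := pow_le_pow_left₀ (norm_nonneg _) h3 2
    have h5 : ‖ψ (w j)‖ ^ (2 - δ) ≤ (max W0 1) ^ 2 := by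
      calc ‖ψ (w j)‖ ^ (2 - δ) ≤ (max W0 1) ^ (2 - δ) :=
            Real.rpow_le_rpow (norm_nonneg _) h3 (by linarith)
        _ ≤ (max W0 1) ^ (2 : ℝ) := Real.rpow_le_rpow_of_exponent_le hm1 (by linarith)
        _ = (max W0 1) ^ 2 := by exact_mod_cast Real.rpow_natCast (max W0 1) 2
    have h6 : (t : ℝ) * ‖ψ (w j)‖ ^ (2 - δ) ≤ t * (max W0 1) ^ 2 :=
      mul_le_mul_of_nonneg_left h5 (by positivity)
    linarith
  -- the approximation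
  set F0 : ℕ → M := fun j =>
    w j ^ 3 * ∑ k : Fin K, (q k : M) * (A j * (w j)⁻¹ ^ 2) ^ (k : ℕ) with hF0
  have hψF : ∀ j, ψ (F0 j) = ψ (w j) ^ 3 *
      ∑ k ∈ Finset.range K, (q k : ℂ) * (ψ (A j) * (ψ (w j))⁻¹ ^ 2) ^ k := by
    intro j
    rw [Finset.sum_range]
    simp only [F0, map_mul, map_pow, map_inv₀, map_sum, map_ratCast]
  have hpt : ∀ᶠ j in (φ : Filter ℕ), |(y j : ℝ)| ≤ |(x j : ℝ)| ^ (2 : ℝ) ∧
      (‖((y j : ℝ) : ℂ) - ψ (F0 j)‖ ≤ |(x j : ℝ)| ^ (-(1 / 2) : ℝ) ∨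
        ‖((-(y j : ℝ) : ℝ) : ℂ) - ψ (F0 j)‖ ≤ |(x j : ℝ)| ^ (-(1 / 2) : ℝ)) := by
    filter_upwards [hWlarge] with j hj
    obtain ⟨h6, h12, hD⟩ := hW0 _ hj
    have h := ptBG t hε K hK7 q C hC hcv (W := ψ (w j)) (s := ψ (A j)) (x := (x j : ℝ))
      (y := (y j : ℝ)) h6 h12 hD (hsB j) (hxC j) (by
        have h1 := hdj j
        push_cast at h1
        exact h1)
    rw [hψF j]
    exact h.2
  -- the approximation is a sum of moderate S-units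
  have hSpw : SpM P φ (fun j => |(x j : ℝ)|) w := hmuSp w hMUw
  have hSpwi : SpM P φ (fun j => |(x j : ℝ)|) (fun j => (w j)⁻¹) := hmuSp _ (hMUinv w hMUw)
  have hSpv : SpM P φ (fun j => |(x j : ℝ)|) (fun j => A j * (w j)⁻¹ ^ 2) :=
    (hSpop A (fun j => (w j)⁻¹ ^ 2) hSpA (hSppow _ 2 hSpwi)).2
  have hSpF : SpM P φ (fun j => |(x j : ℝ)|) F0 := by
    refine (hSpop (fun j => w j ^ 3)
      (fun j => ∑ k : Fin K, (q k : M) * (A j * (w j)⁻¹ ^ 2) ^ (k : ℕ)) (hSppow w 3 hSpw) ?_).2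
    refine hSpsum K (fun k j => (q k : M) * (A j * (w j)⁻¹ ^ 2) ^ (k : ℕ)) fun k => ?_
    exact (hSpop (fun _ => (q k : M)) (fun j => (A j * (w j)⁻¹ ^ 2) ^ (k : ℕ))
      (hslSp _ (hconst (q k : M))) (hSppow _ (k : ℕ) hSpv)).2
  -- the sign
  have hsign : ∃ e : ℤ, (e = 1 ∨ e = -1) ∧ ∀ᶠ j in (φ : Filter ℕ),
      |(y j : ℝ)| ≤ |(x j : ℝ)| ^ (2 : ℝ) ∧
      ‖(((e * y j : ℤ) : ℝ) : ℂ) - ψ (F0 j)‖ ≤ |(x j : ℝ)| ^ (-(1 / 2) : ℝ) := by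
    have h1 : ∀ᶠ j in (φ : Filter ℕ), (|(y j : ℝ)| ≤ |(x j : ℝ)| ^ (2 : ℝ) ∧
        ‖((y j : ℝ) : ℂ) - ψ (F0 j)‖ ≤ |(x j : ℝ)| ^ (-(1 / 2) : ℝ)) ∨
        (|(y j : ℝ)| ≤ |(x j : ℝ)| ^ (2 : ℝ) ∧
        ‖((-(y j : ℝ) : ℝ) : ℂ) - ψ (F0 j)‖ ≤ |(x j : ℝ)| ^ (-(1 / 2) : ℝ)) := by
      filter_upwards [hpt] with j hj
      rcases hj.2 with h2 | h2
      · exact Or.inl ⟨hj.1, h2⟩
      · exact Or.inr ⟨hj.1, h2⟩
    rcases Ultrafilter.eventually_or.1 h1 with h2 | h2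
    · refine ⟨1, Or.inl rfl, ?_⟩
      filter_upwards [h2] with j hj
      refine ⟨hj.1, ?_⟩
      have h4 : (((1 * y j : ℤ) : ℝ) : ℂ) = ((y j : ℝ) : ℂ) := by push_cast; ring
      rw [h4]
      exact hj.2
    · refine ⟨-1, Or.inr rfl, ?_⟩
      filter_upwards [h2] with j hj
      refine ⟨hj.1, ?_⟩
      have h4 : (((-1 * y j : ℤ) : ℝ) : ℂ) = ((-(y j : ℝ) : ℝ) : ℂ) := by push_cast; ring
      rw [h4]
      exact hj.2
  obtain ⟨e, he, hev⟩ := hsign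
  have he2 : (e : ℂ) * e = 1 := by
    rcases he with h | h
    · rw [h]; norm_num
    · rw [h]; norm_num
  have hen : ‖(e : ℂ)‖ = 1 := by
    rcases he with h | h
    · rw [h]; norm_num
    · rw [h]; norm_num
  have hSpf : SpM P φ (fun j => |(x j : ℝ)|) (fun j => (e : M) * F0 j) :=
    (hSpop (fun _ => (e : M)) F0 (hslSp _ (hconst (e : M))) hSpF).2
  have hSpay : Spa P φ (fun j => |(x j : ℝ)|) (fun j => (y j : M)) := by
    refine hSUBYW M S P φ (fun j => |(x j : ℝ)|) y (fun j => (e : M) * F0 j) 2 (1 / 2) hS hXt hSpf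
      (by norm_num) ?_
    filter_upwards [hev] with j hj
    refine ⟨hj.1, ?_⟩
    rw [hP, map_sub, map_mul, map_intCast, map_intCast]
    have h1 : (y j : ℂ) - (e : ℂ) * ψ (F0 j) = (e : ℂ) * ((((e * y j : ℤ) : ℝ) : ℂ) - ψ (F0 j)) := by
      push_cast
      linear_combination (-(y j : ℂ)) * he2
    rw [h1, norm_mul, hen, one_mul]
    exact hj.2
  -- `x`
  have hSpx : SpM P φ (fun j => |(x j : ℝ)|) (fun j => (x j : M)) := by
    have h1 := (hSpop (fun j => w j ^ 2) A (hSppow w 2 hSpw) hSpA).1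
    exact (hSpcongr _ _ (Eventually.of_forall fun j => hsum j)).1 h1
  exact hMAINW M S P φ x y ε hS hε hXt (hSpa _ hSpx) hSpay
    (Eventually.of_forall fun j => ⟨hne3 j, hdj j⟩)

end Pool.Agent.Helper47.SUBW
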